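import Pool.Agent.Helper50.AY.St

/-!
# Project AY, module MXI: the maximal ideal of an Artin-Schreier ring
-/

set_option autoImplicit false

namespace Pool.Agent.Helper94.AY

open Pool.Agent.Helper50.AY Pool.Agent.Helper43.GD Polynomial

private theorem deg_le (p : ℕ) [Fact p.Prime] (m : ℕ) (f : (ZMod p)[X]) (hf : Irreducible f)
    (h : ∀ g : (ZMod p)[X], f ∣ g ^ (p ^ m) - g) (hm : 1 ≤ m) : f.natDegree ≤ m := by
  have : Fact (Irreducible f) := ⟨hf⟩
  have hp := (Fact.out : p.Prime)
  have hfin : Module.Finite (ZMod p) (AdjoinRoot f) :=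
    (AdjoinRoot.powerBasis hf.ne_zero).finite
  have : Finite (AdjoinRoot f) := Module.finite_of_finite (ZMod p)
  have := Fintype.ofFinite (AdjoinRoot f)
  have hcard : Fintype.card (AdjoinRoot f) = p ^ f.natDegree := by
    have h1 := Module.card_eq_pow_finrank (K := ZMod p) (V := AdjoinRoot f)
    rw [ZMod.card, (AdjoinRoot.powerBasis hf.ne_zero).finrank, AdjoinRoot.powerBasis_dim] at h1
    exact h1
  have hall : ∀ y : AdjoinRoot f, y ^ (p ^ m) = y := by
    intro y
    obtain ⟨g, rfl⟩ := AdjoinRoot.mk_surjective y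
    have := h g
    rw [← AdjoinRoot.mk_eq_zero, map_sub, map_pow, sub_eq_zero] at this
    exact this
  have hq : 1 < p ^ m := Nat.one_lt_pow (by omega) hp.one_lt
  have hne : (X ^ (p ^ m) - X : (AdjoinRoot f)[X]) ≠ 0 :=
    FiniteField.X_pow_card_sub_X_ne_zero (AdjoinRoot f) hq
  have hdeg : (X ^ (p ^ m) - X : (AdjoinRoot f)[X]).natDegree = p ^ m :=
    FiniteField.X_pow_card_sub_X_natDegree_eq (AdjoinRoot f) hq
  have hsub : (Finset.univ : Finset (AdjoinRoot f)).val ⊆
      (X ^ (p ^ m) - X : (AdjoinRoot f)[X]).roots := by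
    intro y _
    rw [mem_roots hne, IsRoot, eval_sub, eval_pow, eval_X, hall y, sub_self]
  have hc := card_le_degree_of_subset_roots hsub
  rw [hdeg, Finset.card_univ, hcard] at hc
  exact (Nat.pow_le_pow_iff_right hp.one_lt).1 hc

theorem hMXI (hRA : StRA) (_hEV : StEV) (hUN1 : StUN1) : StMXI := by
  intro L _ p _ k x hR hL ev hevX hsurj
  have hp := (Fact.out : p.Prime)
  have : Finite L := hR.fin
  obtain ⟨P, hP⟩ := Ideal.exists_maximal L
  let : Field (L ⧸ P) := Ideal.Quotient.field P
  have : Finite (L ⧸ P) := Finite.of_surjective (Ideal.Quotient.mk P) Ideal.Quotient.mk_surjective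
  let φ : (ZMod p)[X] →+* (L ⧸ P) := (Ideal.Quotient.mk P).comp ev
  have hφs : Function.Surjective φ := Ideal.Quotient.mk_surjective.comp hsurj
  have hφ0 : ∀ g, φ g = 0 ↔ ev g ∈ P := fun g => Ideal.Quotient.eq_zero_iff_mem
  have hker : RingHom.ker φ ≠ ⊥ := by
    intro h0
    have hinj : Function.Injective φ := (RingHom.injective_iff_ker_eq_bot φ).2 h0
    have h1 : Finite ((ZMod p)[X]) := Finite.of_injective φ hinj
    exact not_finite ((ZMod p)[X])
  have hpr : (RingHom.ker φ).IsPrime := RingHom.ker_isPrime φ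
  obtain ⟨g, hg⟩ := (IsPrincipalIdealRing.principal (RingHom.ker φ)).principal
  rw [Ideal.submodule_span_eq] at hg
  have hg0 : g ≠ 0 := by
    rintro rfl
    apply hker
    rw [hg, Ideal.span_singleton_eq_bot]
  have hgp : Prime g := by
    rw [hg] at hpr
    exact (Ideal.span_singleton_prime hg0).1 hpr
  have hgi : Irreducible g := hgp.irreducible
  have hass : Associated (normalize g) g := (associated_normalize g).symm
  have hirr : Irreducible (normalize g) := hass.symm.irreducible hgi
  have hdvd : ∀ f : (ZMod p)[X], normalize g ∣ f ↔ ev f ∈ P := by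
    intro f
    rw [hass.dvd_iff_dvd_left, ← hφ0, ← RingHom.mem_ker, hg, Ideal.mem_span_singleton]
  have hmem : ev (normalize g) ∈ P := (hdvd _).1 dvd_rfl
  have hnu : ¬ IsUnit (ev (normalize g)) := fun hu =>
    hP.ne_top (Ideal.eq_top_of_isUnit_mem P hmem hu)
  refine ⟨normalize g, monic_normalize hg0, hirr, ?_, hnu, ?_⟩
  · apply le_antisymm
    · apply deg_le p _ _ hirr ?_ (Nat.one_le_pow _ _ hp.pos)
      intro f
      rw [hdvd, map_sub, map_pow, (hRA L p k x hR).2.1 (ev f), sub_self]
      exact P.zero_mem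
    · by_contra hlt
      push Not at hlt
      exact hnu (hUN1 L p k x hR ev hevX _ hirr.ne_zero hlt)
  · intro h0
    rw [Ring.isField_iff_maximal_bot]
    have hbot : P = ⊥ := by
      rw [eq_bot_iff]
      intro y hy
      obtain ⟨f, rfl⟩ := hsurj y
      obtain ⟨c, hc⟩ := (hdvd f).2 hy
      rw [Ideal.mem_bot, hc, map_mul, h0, zero_mul]
    rw [← hbot]
    exact hP

end Pool.Agent.Helper94.AY
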